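import Mathlib

set_option autoImplicit false

namespace Pool.Agent.Work.MP_092669_al

abbrev X := Fin 5
abbrev P := Equiv.Perm (List X)

/-- the tree automorphism with root permutation `σ` and sections `h x`. -/
def mk (σ : Equiv.Perm X) (h : X → P) : P where
  toFun
    | [] => []
    | x :: w => σ x :: h x w
  invFun
    | [] => []
    | x :: w => σ.symm x :: (h (σ.symm x)).symm w
  left_inv w := by cases w <;> simp
  right_inv w := by cases w <;> simp

@[simp] lemma mk_nil (σ : Equiv.Perm X) (h : X → P) : mk σ h [] = [] := rfl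
@[simp] lemma mk_cons (σ : Equiv.Perm X) (h : X → P) (x : X) (w : List X) :
    mk σ h (x :: w) = σ x :: h x w := rfl

lemma mk_mul (σ τ : Equiv.Perm X) (h k : X → P) :
    mk σ h * mk τ k = mk (σ * τ) (fun x => h (τ x) * k x) := by
  ext1 w
  cases w <;> simp

lemma mk_one : mk 1 (fun _ => 1) = 1 := by
  ext1 w
  cases w <;> simp

lemma mk_inj {σ τ : Equiv.Perm X} {h k : X → P} (e : mk σ h = mk τ k) : σ = τ ∧ h = k := by
  have h1 : ∀ x w, mk σ h (x :: w) = mk τ k (x :: w) := fun x w => by rw [e]
  constructor
  · ext1 x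
    exact (List.cons.inj (h1 x [])).1
  · funext x
    ext1 w
    exact (List.cons.inj (h1 x w)).2

lemma mk_inv (σ : Equiv.Perm X) (h : X → P) :
    (mk σ h)⁻¹ = mk σ⁻¹ (fun x => (h (σ⁻¹ x))⁻¹) := by
  rw [inv_eq_iff_mul_eq_one, mk_mul]
  rw [← mk_one]
  simp

/-- The group of order twelve. -/
abbrev B := Multiplicative (ZMod 2 × ZMod 2 × ZMod 3)

/-- rotation of the Klein part -/
def rho : B → B := fun β =>
  Multiplicative.ofAdd (β.toAdd.2.1, β.toAdd.1 + β.toAdd.2.1, β.toAdd.2.2)

/-- the character of the Klein part -/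
def omg : B → ZMod 2 := fun β => β.toAdd.1 + β.toAdd.2.1

/-- the three-cycle -/
def cyc : Equiv.Perm X := Equiv.swap 2 3 * Equiv.swap 3 4

/-- root permutation of an element of `B` -/
def tau : B → Equiv.Perm X := fun β => cyc ^ (β.toAdd.2.2).val

/-- root permutation of `a` -/
def sga : Equiv.Perm X := Equiv.swap 0 2 * Equiv.swap 1 3

/-- weight -/
def wB : B → ℕ := fun β =>
  if β.toAdd.1 = 1 then (if β.toAdd.2.1 = 1 then 1 else 3)
  else (if β.toAdd.2.1 = 1 then 2 else (if β.toAdd.2.2 = 0 then 0 else 1))

lemma rho_mul : ∀ β γ : B, rho (β * γ) = rho β * rho γ := by decide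
lemma rho_one : rho 1 = 1 := by decide
lemma omg_mul : ∀ β γ : B, omg (β * γ) = omg β + omg γ := by decide
lemma tau_mul : ∀ β γ : B, tau (β * γ) = tau β * tau γ := by decide
lemma tau_one : tau 1 = 1 := by decide
lemma tau_zero : ∀ β : B, tau β 0 = 0 := by decide
lemma tau_one' : ∀ β : B, tau β 1 = 1 := by decide
lemma wB_mul : ∀ β γ : B, wB (β * γ) ≤ wB β + wB γ := by decide
lemma wB_one : wB 1 = 0 := by decide
lemma wB_eq_zero : ∀ β : B, wB β = 0 → β = 1 := by decide
lemma wB_le : ∀ β : B, wB β ≤ 3 := by decide
lemma contr : ∀ β : B, 6 * (wB (rho β) + (if omg β = 0 then 0 else 3)) ≤ 5 * (wB β + 3) := by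
  decide

/-- the rooted generator -/
def aP : P := mk sga (fun _ => 1)

lemma aP_mul_aP : aP * aP = 1 := by
  have h : sga * sga = 1 := by decide
  rw [aP, mk_mul, h]
  simp [mk_one]

/-- powers of `a` -/
def aPow (e : ZMod 2) : P := if e = 0 then 1 else aP

lemma aPow_add : ∀ e f : ZMod 2, aPow (e + f) = aPow e * aPow f := by
  intro e f
  have he : e = 0 ∨ e = 1 := by revert e; decide
  have hf : f = 0 ∨ f = 1 := by revert f; decide
  have h10 : (1 : ZMod 2) ≠ 0 := by decide
  have h11 : (1 + 1 : ZMod 2) = 0 := by decide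
  rcases he with rfl | rfl <;> rcases hf with rfl | rfl <;>
    simp [aPow, h10, h11, aP_mul_aP]

/-- the action of `B` on words -/
def bAct : B → List X → List X
  | _, [] => []
  | β, x :: w => tau β x ::
      (if x = 0 then bAct (rho β) w else if x = 1 then aPow (omg β) w else w)

lemma bAct_one (w : List X) : bAct 1 w = w := by
  induction w with
  | nil => rfl
  | cons x w ih =>
    have h0 : omg 1 = 0 := by decide
    simp [bAct, tau_one, rho_one, ih, h0, aPow]

lemma bAct_mul (β γ : B) (w : List X) : bAct (β * γ) w = bAct β (bAct γ w) := by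
  induction w generalizing β γ with
  | nil => rfl
  | cons x w ih =>
    have hinj : ∀ y : X, (tau γ x = y ↔ x = (tau γ)⁻¹ y) := fun y =>
      Equiv.Perm.eq_inv_iff_eq.symm
    have h0 : (tau γ)⁻¹ 0 = 0 := by rw [Equiv.Perm.inv_eq_iff_eq, tau_zero]
    have h1 : (tau γ)⁻¹ 1 = 1 := by rw [Equiv.Perm.inv_eq_iff_eq, tau_one']
    simp only [bAct, tau_mul, Equiv.Perm.mul_apply, hinj, h0, h1]
    congr 1
    split_ifs with hx0 hx1
    · rw [rho_mul, ih]
    · rw [omg_mul, aPow_add]; rfl
    · rfl

/-- the action of `B` as a homomorphism -/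
def bP : B →* P where
  toFun β :=
    { toFun := bAct β
      invFun := bAct β⁻¹
      left_inv := fun w => by rw [← bAct_mul]; simp [bAct_one]
      right_inv := fun w => by rw [← bAct_mul]; simp [bAct_one] }
  map_one' := by ext1 w; exact bAct_one w
  map_mul' β γ := by ext1 w; exact bAct_mul β γ w

lemma bP_eq (β : B) : bP β =
    mk (tau β) (fun x => if x = 0 then bP (rho β) else if x = 1 then aPow (omg β) else 1) := by
  ext1 w
  cases w with
  | nil => rfl
  | cons x w =>
    show bAct β (x :: w) = _
    rw [bAct, mk_cons]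
    congr 1
    split_ifs <;> rfl

/-- letters: `none` is `a`, `some β` is the element `β` of `B`. -/
abbrev L := Option B

/-- evaluation of a letter -/
def evalL : L → P
  | none => aP
  | some β => bP β

/-- evaluation of a word -/
def eval (l : List L) : P := (l.map evalL).prod

@[simp] lemma eval_nil : eval [] = 1 := rfl
@[simp] lemma eval_cons (q : L) (l : List L) : eval (q :: l) = evalL q * eval l := by
  simp [eval]
lemma eval_append (l l' : List L) : eval (l ++ l') = eval l * eval l' := by simp [eval]

/-- root permutation of a letter -/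
def permL : L → Equiv.Perm X
  | none => sga
  | some β => tau β

/-- sections of a letter -/
def secL : L → X → List L
  | none, _ => []
  | some β, x => if x = 0 then [some (rho β)] else if x = 1 then
      (if omg β = 0 then [] else [none]) else []

/-- root permutation of a word -/
def perm : List L → Equiv.Perm X
  | [] => 1
  | q :: l => permL q * perm l

/-- sections of a word -/
def sec : List L → X → List L
  | [], _ => []
  | q :: l, x => secL q (perm l x) ++ sec l x

lemma evalL_eq (q : L) : evalL q = mk (permL q) (fun x => eval (secL q x)) := by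
  cases q with
  | none => rfl
  | some β =>
    show bP β = _
    rw [bP_eq]
    congr 1
    funext x
    simp only [secL, aPow]
    split_ifs <;> simp [evalL]

lemma eval_eq (l : List L) : eval l = mk (perm l) (fun x => eval (sec l x)) := by
  induction l with
  | nil => simp [perm, sec, mk_one]
  | cons q l ih =>
    rw [eval_cons, evalL_eq, ih, mk_mul]
    congr 1
    funext x
    rw [sec, eval_append]

/-- weight of a letter -/
def wtL : L → ℕ
  | none => 3
  | some β => wB β

/-- weight of a word -/
def wt (l : List L) : ℕ := (l.map wtL).sum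

@[simp] lemma wt_nil : wt [] = 0 := rfl
@[simp] lemma wt_cons (q : L) (l : List L) : wt (q :: l) = wtL q + wt l := by simp [wt]
lemma wt_append (l l' : List L) : wt (l ++ l') = wt l + wt l' := by simp [wt]

/-- total weight of the sections of a letter -/
def costL (q : L) : ℕ := ∑ y : X, wt (secL q y)

/-- total weight of the sections of the letters of a word -/
def cost (l : List L) : ℕ := (l.map costL).sum

@[simp] lemma cost_nil : cost [] = 0 := rfl
@[simp] lemma cost_cons (q : L) (l : List L) : cost (q :: l) = costL q + cost l := by simp [cost]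

lemma sum_sec (l : List L) : ∑ x : X, wt (sec l x) = cost l := by
  induction l with
  | nil => simp [sec]
  | cons q l ih =>
    simp only [sec, wt_append, Finset.sum_add_distrib, ih, cost_cons]
    congr 1
    exact Equiv.sum_comp (perm l) (fun y => wt (secL q y))

lemma costL_none : costL none = 0 := by decide

lemma costL_some : ∀ β : B, 6 * costL (some β) ≤ 5 * (wB β + 3) := by decide

/-- alternating words -/
def nf (β : B) : List B → List L
  | [] => [some β]
  | γ :: m => some β :: none :: nf γ m

lemma exists_nf (l : List L) : ∃ β m, eval (nf β m) = eval l ∧ wt (nf β m) ≤ wt l := by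
  induction l with
  | nil =>
    refine ⟨1, [], ?_, ?_⟩
    · simp [nf, evalL]
    · simp [nf, wtL, wB_one]
  | cons q l ih =>
    obtain ⟨β, m, h1, h2⟩ := ih
    cases q with
    | none =>
      refine ⟨1, β :: m, ?_, ?_⟩
      · simp [nf, evalL, h1]
      · simp [nf, wtL, wB_one, h2]
    | some γ =>
      refine ⟨γ * β, m, ?_, ?_⟩
      · rw [eval_cons, ← h1]
        cases m <;> simp [nf, evalL, mul_assoc]
      · rw [wt_cons]
        have h3 := wB_mul γ β
        have h4 : wt (nf (γ * β) m) + wB β = wt (nf β m) + wB (γ * β) := by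
          cases m <;> simp [nf, wtL] <;> ring
        simp only [wtL]
        omega

lemma cost_nf (β : B) (m : List B) : 6 * cost (nf β m) ≤ 5 * (wt (nf β m) + 3) := by
  induction m generalizing β with
  | nil =>
    have := costL_some β
    simp only [nf, cost_cons, cost_nil, wt_cons, wt_nil, wtL]
    omega
  | cons γ m ih =>
    have h1 := costL_some β
    have h2 := ih γ
    simp only [nf, cost_cons, wt_cons, wtL, costL_none]
    omega

/-- the set of elements of weight at most `n` -/
def Bd (n : ℕ) : Set P := {g | ∃ l : List L, wt l ≤ n ∧ eval l = g}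

/-- contraction -/
lemma contraction (n : ℕ) (g : P) (hg : g ∈ Bd n) :
    ∃ (σ : Equiv.Perm X) (h : X → P) (k : X → ℕ), g = mk σ h ∧ (∀ x, h x ∈ Bd (k x)) ∧
      6 * ∑ x, k x ≤ 5 * (n + 3) := by
  obtain ⟨l, hl, rfl⟩ := hg
  obtain ⟨β, m, h1, h2⟩ := exists_nf l
  refine ⟨perm (nf β m), fun x => eval (sec (nf β m) x), fun x => wt (sec (nf β m) x), ?_, ?_, ?_⟩
  · rw [← h1, ← eval_eq]
  · intro x
    exact ⟨_, le_rfl, rfl⟩
  · rw [sum_sec]
    have := cost_nf β m
    omega

end Pool.Agent.Work.MP_092669_al
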