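import Mathlib
import Pool.Agent.Work.MP_092669_al.Basic

set_option autoImplicit false

namespace Pool.Agent.Work.MP_092669_al

open Classical in
/-- products of `n` letters -/
noncomputable def FF : ℕ → Finset P
  | 0 => {1}
  | n + 1 => (Finset.univ ×ˢ FF n).image (fun p : L × P => evalL p.1 * p.2)

lemma card_FF (n : ℕ) : (FF n).card ≤ 13 ^ n := by
  classical
  induction n with
  | zero => simp [FF]
  | succ n ih =>
    rw [FF]
    refine Finset.card_image_le.trans ?_
    rw [Finset.card_product]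
    have h : (Finset.univ : Finset L).card = 13 := by decide
    rw [h, pow_succ, mul_comm]
    exact Nat.mul_le_mul_right _ ih

lemma Bd_subset_FF (n : ℕ) : Bd n ⊆ (FF n : Set P) := by
  classical
  rintro _ ⟨l, hl, rfl⟩
  induction l generalizing n with
  | nil =>
    rw [eval_nil]
    clear hl
    induction n with
    | zero => simp [FF]
    | succ n ih =>
      rw [FF, Finset.coe_image]
      refine ⟨(some 1, 1), ?_, by simp [evalL]⟩
      rw [Finset.mem_coe, Finset.mem_product]
      exact ⟨Finset.mem_univ _, ih⟩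
  | cons q l ih =>
    rw [wt_cons] at hl
    rw [eval_cons]
    rcases Nat.eq_zero_or_pos (wtL q) with h0 | hpos
    · have hq : q = some 1 := by
        cases q with
        | none => simp [wtL] at h0
        | some β => rw [wB_eq_zero β h0]
      have h1 : evalL q * eval l = eval l := by rw [hq]; simp [evalL]
      rw [h1]
      exact ih n (by omega)
    · obtain ⟨n, rfl⟩ : ∃ k, n = k + 1 := ⟨n - 1, by omega⟩
      rw [FF, Finset.coe_image]
      refine ⟨(q, eval l), ?_, rfl⟩
      rw [Finset.mem_coe, Finset.mem_product]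
      exact ⟨Finset.mem_univ _, ih n (by omega)⟩

lemma Bd_finite (n : ℕ) : (Bd n).Finite := (FF n).finite_toSet.subset (Bd_subset_FF n)

/-- number of elements of weight at most `n` -/
noncomputable def NB (n : ℕ) : ℕ := (Bd n).ncard

lemma NB_le (n : ℕ) : NB n ≤ 13 ^ n := by
  have h1 := Set.ncard_le_ncard (Bd_subset_FF n) (FF n).finite_toSet
  rw [Set.ncard_coe_finset] at h1
  exact h1.trans (card_FF n)

/-- admissible tuples of weights -/
def TP (n : ℕ) : Finset (X → ℕ) :=
  (Fintype.piFinset fun _ : X => Finset.range (n + 4)).filter (fun k => 6 * ∑ x, k x ≤ 5 * (n + 3))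

lemma card_TP (n : ℕ) : (TP n).card ≤ (n + 4) ^ 5 := by
  refine (Finset.card_filter_le _ _).trans ?_
  rw [Fintype.card_piFinset]
  simp

lemma NB_rec (n : ℕ) : NB n ≤ ∑ k ∈ TP n, 120 * ∏ x : X, NB (k x) := by
  classical
  let bF : ℕ → Finset P := fun m => (Bd_finite m).toFinset
  have hbF : ∀ m, (bF m).card = NB m := fun m => (Set.ncard_eq_toFinset_card _ _).symm
  let U : (X → ℕ) → Finset P := fun k =>
    ((Finset.univ : Finset (Equiv.Perm X)) ×ˢ Fintype.piFinset (fun x => bF (k x))).image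
      (fun p => mk p.1 p.2)
  have hsub : Bd n ⊆ (((TP n).biUnion U : Finset P) : Set P) := by
    intro g hg
    obtain ⟨σ, h, k, rfl, hk, hs⟩ := contraction n g hg
    rw [Finset.mem_coe, Finset.mem_biUnion]
    refine ⟨k, ?_, ?_⟩
    · rw [TP, Finset.mem_filter]
      refine ⟨?_, hs⟩
      rw [Fintype.mem_piFinset]
      intro x
      rw [Finset.mem_range]
      have := Finset.single_le_sum (f := k) (fun i _ => Nat.zero_le _) (Finset.mem_univ x)
      omega
    · rw [Finset.mem_image]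
      refine ⟨(σ, h), ?_, rfl⟩
      rw [Finset.mem_product]
      refine ⟨Finset.mem_univ _, ?_⟩
      rw [Fintype.mem_piFinset]
      intro x
      exact (Set.Finite.mem_toFinset _).2 (hk x)
  have h1 := Set.ncard_le_ncard hsub (Finset.finite_toSet _)
  rw [Set.ncard_coe_finset] at h1
  refine h1.trans (Finset.card_biUnion_le.trans (Finset.sum_le_sum ?_))
  intro k _
  refine Finset.card_image_le.trans ?_
  rw [Finset.card_product, Fintype.card_piFinset]
  have h2 : (Finset.univ : Finset (Equiv.Perm X)).card = 120 := by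
    rw [Finset.card_univ, Fintype.card_perm]; decide
  rw [h2]
  simp only [hbF]
  exact le_rfl

/-- exponential bound with rate `lam`. -/
def ExpBound (lam : ℝ) : Prop := ∃ C : ℝ, 1 ≤ C ∧ ∀ n : ℕ, (NB n : ℝ) ≤ C * Real.exp (lam * n)

lemma poly_le_exp (ε : ℝ) (hε : 0 < ε) : ∃ C : ℝ, 1 ≤ C ∧ ∀ n : ℕ, ((n : ℝ) + 4) ^ 5 ≤
    C * Real.exp (ε * n) := by
  have h1 : ∀ x : ℝ, 0 ≤ x → x ^ 5 / (Nat.factorial 5) ≤ Real.exp x := fun x hx =>
    Real.pow_div_factorial_le_exp x hx 5
  refine ⟨max 1 ((Nat.factorial 5) / ε ^ 5 * Real.exp (4 * ε)), le_max_left _ _, fun n => ?_⟩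
  have h2 := h1 (ε * (n + 4)) (by positivity)
  have h3 : ((n : ℝ) + 4) ^ 5 ≤ (Nat.factorial 5) / ε ^ 5 * Real.exp (ε * (n + 4)) := by
    rw [div_le_iff₀ (by positivity), mul_pow] at h2
    rw [div_mul_eq_mul_div, le_div_iff₀ (by positivity)]
    linarith
  calc ((n : ℝ) + 4) ^ 5 ≤ (Nat.factorial 5) / ε ^ 5 * Real.exp (ε * (n + 4)) := h3
    _ = ((Nat.factorial 5) / ε ^ 5 * Real.exp (4 * ε)) * Real.exp (ε * n) := by
        rw [mul_assoc, ← Real.exp_add]; congr 2; ring
    _ ≤ _ := mul_le_mul_of_nonneg_right (le_max_right _ _) (Real.exp_pos _).le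

lemma ExpBound.step {lam : ℝ} (hlam : 0 < lam) (h : ExpBound lam) : ExpBound (11 / 12 * lam) := by
  obtain ⟨C, hC, hN⟩ := h
  obtain ⟨D, hD, hP⟩ := poly_le_exp (lam / 12) (by positivity)
  have hC0 : 0 < C := by linarith
  refine ⟨120 * C ^ 5 * Real.exp (5 / 2 * lam) * D, ?_, fun n => ?_⟩
  · have h1 : 1 ≤ C ^ 5 := one_le_pow₀ hC
    have h2 : 1 ≤ Real.exp (5 / 2 * lam) := Real.one_le_exp (by positivity)
    nlinarith [mul_le_mul h1 h2 zero_le_one (by positivity), mul_le_mul
      (mul_le_mul h1 h2 zero_le_one (by positivity)) hD zero_le_one (by positivity)]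
  · have h1 : (NB n : ℝ) ≤ ∑ k ∈ TP n, 120 * ∏ x : X, (NB (k x) : ℝ) := by
      exact_mod_cast NB_rec n
    have h2 : ∀ k ∈ TP n, 120 * ∏ x : X, (NB (k x) : ℝ) ≤
        120 * C ^ 5 * Real.exp (lam * (5 / 6 * (n + 3))) := by
      intro k hk
      have hk2 : 6 * ∑ x, k x ≤ 5 * (n + 3) := (Finset.mem_filter.1 hk).2
      have hk3 : (∑ x, (k x : ℝ)) ≤ 5 / 6 * (n + 3) := by
        have : (6 : ℝ) * ∑ x, (k x : ℝ) ≤ 5 * (n + 3) := by exact_mod_cast hk2
        linarith
      have h3 : ∏ x : X, (NB (k x) : ℝ) ≤ ∏ x : X, C * Real.exp (lam * k x) :=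
        Finset.prod_le_prod (fun _ _ => by positivity) (fun x _ => hN (k x))
      have h4 : ∏ x : X, C * Real.exp (lam * k x) = C ^ 5 * Real.exp (lam * ∑ x, (k x : ℝ)) := by
        rw [Finset.prod_mul_distrib, ← Real.exp_sum, Finset.mul_sum]
        simp
      have h5 : Real.exp (lam * ∑ x, (k x : ℝ)) ≤ Real.exp (lam * (5 / 6 * (n + 3))) :=
        Real.exp_le_exp.2 (mul_le_mul_of_nonneg_left hk3 hlam.le)
      calc 120 * ∏ x : X, (NB (k x) : ℝ) ≤ 120 * (C ^ 5 * Real.exp (lam * ∑ x, (k x : ℝ))) := by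
            rw [← h4]; exact mul_le_mul_of_nonneg_left h3 (by norm_num)
        _ ≤ 120 * (C ^ 5 * Real.exp (lam * (5 / 6 * (n + 3)))) := by
            apply mul_le_mul_of_nonneg_left _ (by norm_num)
            exact mul_le_mul_of_nonneg_left h5 (by positivity)
        _ = _ := by ring
    have h3 : (NB n : ℝ) ≤ (n + 4) ^ 5 * (120 * C ^ 5 * Real.exp (lam * (5 / 6 * (n + 3)))) := by
      calc (NB n : ℝ) ≤ ∑ k ∈ TP n, 120 * C ^ 5 * Real.exp (lam * (5 / 6 * (n + 3))) :=
            h1.trans (Finset.sum_le_sum h2)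
        _ = (TP n).card * (120 * C ^ 5 * Real.exp (lam * (5 / 6 * (n + 3)))) := by
            rw [Finset.sum_const, nsmul_eq_mul]
        _ ≤ _ := by
            apply mul_le_mul_of_nonneg_right _ (by positivity)
            exact_mod_cast card_TP n
    calc (NB n : ℝ) ≤ (n + 4) ^ 5 * (120 * C ^ 5 * Real.exp (lam * (5 / 6 * (n + 3)))) := h3
      _ ≤ (D * Real.exp (lam / 12 * n)) * (120 * C ^ 5 * Real.exp (lam * (5 / 6 * (n + 3)))) :=
          mul_le_mul_of_nonneg_right (hP n) (by positivity)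
      _ = 120 * C ^ 5 * D * (Real.exp (lam / 12 * n) * Real.exp (lam * (5 / 6 * (n + 3)))) := by ring
      _ = 120 * C ^ 5 * D * (Real.exp (5 / 2 * lam) * Real.exp (11 / 12 * lam * n)) := by
          rw [← Real.exp_add, ← Real.exp_add]; congr 2; ring
      _ = _ := by ring

lemma ExpBound.mono {a b : ℝ} (hab : a ≤ b) (h : ExpBound a) : ExpBound b := by
  obtain ⟨C, hC, hN⟩ := h
  refine ⟨C, hC, fun n => (hN n).trans ?_⟩
  apply mul_le_mul_of_nonneg_left _ (by linarith)
  exact Real.exp_le_exp.2 (mul_le_mul_of_nonneg_right hab (by positivity))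

lemma expBound_init : ExpBound (Real.log 13) := by
  refine ⟨1, le_rfl, fun n => ?_⟩
  rw [one_mul, mul_comm, Real.exp_nat_mul, Real.exp_log (by norm_num)]
  exact_mod_cast NB_le n

lemma expBound (ε : ℝ) (hε : 0 < ε) : ExpBound ε := by
  have h1 : ∀ k : ℕ, ExpBound ((11 / 12) ^ k * Real.log 13) := by
    intro k
    induction k with
    | zero => simpa using expBound_init
    | succ k ih =>
      have h2 : 0 < (11 / 12 : ℝ) ^ k * Real.log 13 :=
        mul_pos (by positivity) (Real.log_pos (by norm_num))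
      have := ih.step h2
      rwa [← mul_assoc, ← pow_succ'] at this
  have h2 : Filter.Tendsto (fun k : ℕ => (11 / 12 : ℝ) ^ k * Real.log 13) Filter.atTop (nhds 0) := by
    have := (tendsto_pow_atTop_nhds_zero_of_lt_one (r := (11 / 12 : ℝ)) (by norm_num)
      (by norm_num)).mul_const (Real.log 13)
    simpa using this
  obtain ⟨k, hk⟩ := (h2.eventually (gt_mem_nhds hε)).exists
  exact (h1 k).mono hk.le

/-- the generating set -/
noncomputable def SS : Finset P := by
  classical
  exact Finset.univ.image evalL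

lemma mem_SS (g : P) : g ∈ SS ↔ ∃ q : L, evalL q = g := by
  classical
  simp [SS]

lemma inv_mem_SS {g : P} (hg : g⁻¹ ∈ SS) : g ∈ SS := by
  rw [mem_SS] at hg ⊢
  obtain ⟨q, hq⟩ := hg
  cases q with
  | none =>
    refine ⟨none, ?_⟩
    have h1 : aP = g⁻¹ := hq
    have h2 : aP⁻¹ = aP := inv_eq_of_mul_eq_one_left aP_mul_aP
    show aP = g
    rw [← h2, h1, inv_inv]
  | some β =>
    refine ⟨some β⁻¹, ?_⟩
    have h1 : bP β = g⁻¹ := hq
    show bP β⁻¹ = g
    rw [map_inv, h1, inv_inv]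

/-- ball of radius `r` with respect to a finite set `S` -/
def ball (S : Finset P) (r : ℕ) : Set P :=
  {g | ∃ l : List P, l.length ≤ r ∧ (∀ s ∈ l, s ∈ S ∨ s⁻¹ ∈ S) ∧ l.prod = g}

lemma ball_subset (r : ℕ) : ball SS r ⊆ Bd (3 * r) := by
  rintro _ ⟨l, hl, hS, rfl⟩
  have h1 : ∃ l' : List L, wt l' ≤ 3 * l.length ∧ eval l' = l.prod := by
    clear hl
    induction l with
    | nil => exact ⟨[], by simp, by simp⟩
    | cons s l ih =>
      obtain ⟨l', h1, h2⟩ := ih (fun t ht => hS t (List.mem_cons_of_mem _ ht))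
      have hs : s ∈ SS := (hS s List.mem_cons_self).elim id inv_mem_SS
      obtain ⟨q, hq⟩ := (mem_SS s).1 hs
      refine ⟨q :: l', ?_, ?_⟩
      · rw [wt_cons, List.length_cons]
        have : wtL q ≤ 3 := by
          cases q with
          | none => exact le_rfl
          | some β => exact wB_le β
        omega
      · rw [eval_cons, h2, hq, List.prod_cons]
  obtain ⟨l', h1, h2⟩ := h1
  exact ⟨l', by omega, h2⟩

lemma one_mem_ball (S : Finset P) (r : ℕ) : (1 : P) ∈ ball S r := ⟨[], by simp, by simp, rfl⟩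

theorem growth : Filter.Tendsto (fun r : ℕ => ((ball SS r).ncard : ℝ) ^ (1 / (r : ℝ)))
    Filter.atTop (nhds 1) := by
  rw [Metric.tendsto_atTop]
  intro δ hδ
  -- choose ε with exp (4 ε) < 1 + δ
  have hlog : 0 < Real.log (1 + δ) := Real.log_pos (by linarith)
  obtain ⟨C, hC, hN⟩ := expBound (Real.log (1 + δ) / 12) (by positivity)
  have hCpos : 0 < C := by linarith
  obtain ⟨R, hR⟩ := exists_nat_gt (4 * Real.log C / Real.log (1 + δ))
  refine ⟨R + 1, fun r hr => ?_⟩
  have hr0 : (0 : ℝ) < r := by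
    have : 0 < r := by omega
    exact_mod_cast this
  have hrR : (R : ℝ) < r := by
    have : R < r := by omega
    exact_mod_cast this
  have hfin : (ball SS r).Finite := (Bd_finite _).subset (ball_subset r)
  have h1 : 1 ≤ ((ball SS r).ncard : ℝ) := by
    have : 0 < (ball SS r).ncard := (Set.ncard_pos hfin).2 ⟨1, one_mem_ball _ _⟩
    exact_mod_cast this
  have h2 : ((ball SS r).ncard : ℝ) ≤ C * Real.exp (Real.log (1 + δ) / 4 * r) := by
    have h3 : ((ball SS r).ncard : ℝ) ≤ NB (3 * r) := by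
      exact_mod_cast Set.ncard_le_ncard (ball_subset r) (Bd_finite _)
    refine (h3.trans (hN _)).trans (le_of_eq ?_)
    push_cast
    congr 2
    ring
  have h3 : C ≤ Real.exp (Real.log (1 + δ) / 4 * r) := by
    rw [← Real.log_le_iff_le_exp hCpos]
    have h4 : 4 * Real.log C / Real.log (1 + δ) < r := hR.trans hrR
    rw [div_lt_iff₀ hlog] at h4
    linarith
  have h4 : ((ball SS r).ncard : ℝ) ≤ Real.exp (Real.log (1 + δ) / 2 * r) := by
    refine h2.trans ?_
    calc C * Real.exp (Real.log (1 + δ) / 4 * r) ≤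
        Real.exp (Real.log (1 + δ) / 4 * r) * Real.exp (Real.log (1 + δ) / 4 * r) :=
          mul_le_mul_of_nonneg_right h3 (Real.exp_pos _).le
      _ = _ := by rw [← Real.exp_add]; congr 1; ring
  have h5 : ((ball SS r).ncard : ℝ) ^ (1 / (r : ℝ)) ≤ Real.exp (Real.log (1 + δ) / 2) := by
    calc ((ball SS r).ncard : ℝ) ^ (1 / (r : ℝ)) ≤
        (Real.exp (Real.log (1 + δ) / 2 * r)) ^ (1 / (r : ℝ)) :=
          Real.rpow_le_rpow (by linarith) h4 (by positivity)
      _ = Real.exp (Real.log (1 + δ) / 2) := by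
          rw [← Real.exp_mul]; congr 1; field_simp
  have h6 : 1 ≤ ((ball SS r).ncard : ℝ) ^ (1 / (r : ℝ)) :=
    Real.one_le_rpow h1 (by positivity)
  have h7 : Real.exp (Real.log (1 + δ) / 2) < 1 + δ := by
    calc Real.exp (Real.log (1 + δ) / 2) < Real.exp (Real.log (1 + δ)) :=
          Real.exp_lt_exp.2 (by linarith)
      _ = 1 + δ := Real.exp_log (by linarith)
  rw [Real.dist_eq, abs_lt]
  constructor <;> linarith

end Pool.Agent.Work.MP_092669_al
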