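import Mathlib
import Pool.Agent.Work.MP_092669_al.Growth

set_option autoImplicit false

namespace Pool.Agent.Work.MP_092669_al

open Equiv.Perm
open scoped commutatorElement

lemma ais {α : Type*} (g : Equiv.Perm α) (x : α) : g (g⁻¹ x) = x := g.apply_symm_apply x
lemma isa {α : Type*} (g : Equiv.Perm α) (x : α) : g⁻¹ (g x) = x := g.symm_apply_apply x

/-- the alternating group of degree five -/
abbrev A5 : Subgroup (Equiv.Perm X) := alternatingGroup X

/-- automorphisms of the tree whose local permutations are all even -/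
def W : Subgroup P where
  carrier := {g | g [] = [] ∧ ∀ v : List X, ∃ σ ∈ A5, ∀ x : X, g (v ++ [x]) = g v ++ [σ x]}
  one_mem' := ⟨rfl, fun v => ⟨1, one_mem _, fun x => rfl⟩⟩
  mul_mem' := by
    rintro g h ⟨hg0, hg⟩ ⟨hh0, hh⟩
    refine ⟨by rw [mul_apply, hh0, hg0], fun v => ?_⟩
    obtain ⟨σ, hσ, h1⟩ := hh v
    obtain ⟨τ, hτ, h2⟩ := hg (h v)
    refine ⟨τ * σ, mul_mem hτ hσ, fun x => ?_⟩
    rw [mul_apply, mul_apply, mul_apply, h1, h2]
  inv_mem' := by
    rintro g ⟨hg0, hg⟩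
    refine ⟨by rw [inv_eq_iff_eq, hg0], fun v => ?_⟩
    obtain ⟨σ, hσ, h1⟩ := hg (g⁻¹ v)
    refine ⟨σ⁻¹, inv_mem hσ, fun x => ?_⟩
    rw [inv_eq_iff_eq, h1, ais, ais]

lemma mem_W {g : P} : g ∈ W ↔
    (g [] = [] ∧ ∀ v : List X, ∃ σ ∈ A5, ∀ x : X, g (v ++ [x]) = g v ++ [σ x]) := Iff.rfl

lemma W_length {g : P} (hg : g ∈ W) (v : List X) : (g v).length = v.length := by
  induction v using List.reverseRecOn with
  | nil => rw [(mem_W.1 hg).1]
  | append_singleton v x ih =>
    obtain ⟨σ, _, h⟩ := (mem_W.1 hg).2 v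
    rw [h, List.length_append, List.length_append, ih]
    rfl

lemma mk_mem_W {σ : Equiv.Perm X} {h : X → P} (hσ : σ ∈ A5) (hh : ∀ x, h x ∈ W) :
    mk σ h ∈ W := by
  refine ⟨rfl, fun v => ?_⟩
  cases v with
  | nil =>
    refine ⟨σ, hσ, fun x => ?_⟩
    show σ x :: h x [] = [σ x]
    rw [(mem_W.1 (hh x)).1]
  | cons y v =>
    obtain ⟨τ, hτ, h1⟩ := (mem_W.1 (hh y)).2 v
    refine ⟨τ, hτ, fun x => ?_⟩
    show σ y :: h y (v ++ [x]) = (σ y :: h y v) ++ [τ x]
    rw [h1]
    rfl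

lemma exists_mk {g : P} (hg : g ∈ W) :
    ∃ σ ∈ A5, ∃ h : X → P, (∀ x, h x ∈ W) ∧ g = mk σ h := by
  obtain ⟨σ, hσ, h0⟩ := (mem_W.1 hg).2 []
  have hroot : ∀ x v, ∃ u, g (x :: v) = σ x :: u := by
    intro x v
    induction v using List.reverseRecOn with
    | nil =>
      refine ⟨[], ?_⟩
      have := h0 x
      rw [(mem_W.1 hg).1] at this
      simpa using this
    | append_singleton v y ih =>
      obtain ⟨u, hu⟩ := ih
      obtain ⟨τ, _, h1⟩ := (mem_W.1 hg).2 (x :: v)
      refine ⟨u ++ [τ y], ?_⟩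
      rw [← List.cons_append, h1, hu]
      rfl
  have hcons : ∀ x v, g (x :: v) = σ x :: (g (x :: v)).tail := by
    intro x v
    obtain ⟨u, hu⟩ := hroot x v
    rw [hu]
    rfl
  have hinv : ∀ x v, g⁻¹ (σ x :: v) = x :: (g⁻¹ (σ x :: v)).tail := by
    intro x v
    rcases hu : g⁻¹ (σ x :: v) with _ | ⟨y, u⟩
    · rw [inv_eq_iff_eq, (mem_W.1 hg).1] at hu
      exact absurd hu (by simp)
    · have h2 : σ x :: v = g (y :: u) := by rw [← hu, ais]
      rw [hcons] at h2
      have h3 : x = y := σ.injective (List.cons.inj h2).1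
      rw [h3]
      rfl
  let h : X → P := fun x =>
    { toFun := fun v => (g (x :: v)).tail
      invFun := fun v => (g⁻¹ (σ x :: v)).tail
      left_inv := fun v => by
        show (g⁻¹ (σ x :: (g (x :: v)).tail)).tail = v
        rw [← hcons, isa]
        rfl
      right_inv := fun v => by
        show (g (x :: (g⁻¹ (σ x :: v)).tail)).tail = v
        rw [← hinv, ais]
        rfl }
  refine ⟨σ, hσ, h, ?_, ?_⟩
  · intro x
    refine ⟨?_, fun v => ?_⟩
    · show (g [x]).tail = []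
      have := h0 x
      rw [(mem_W.1 hg).1] at this
      have h1 : g [x] = [σ x] := by simpa using this
      rw [h1]
      rfl
    · obtain ⟨τ, hτ, h1⟩ := (mem_W.1 hg).2 (x :: v)
      refine ⟨τ, hτ, fun y => ?_⟩
      show (g (x :: (v ++ [y]))).tail = (g (x :: v)).tail ++ [τ y]
      rw [← List.cons_append, h1, hcons x v]
      rfl
  · ext1 v
    cases v with
    | nil => exact (mem_W.1 hg).1
    | cons x v => exact hcons x v

lemma mk_mem_W_iff {σ : Equiv.Perm X} {h : X → P} : mk σ h ∈ W ↔ σ ∈ A5 ∧ ∀ x, h x ∈ W := by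
  constructor
  · intro hm
    obtain ⟨τ, hτ, k, hk, e⟩ := exists_mk hm
    obtain ⟨rfl, rfl⟩ := mk_inj e
    exact ⟨hτ, hk⟩
  · rintro ⟨h1, h2⟩
    exact mk_mem_W h1 h2

/-- elements acting trivially on the first level -/
def st : (X → P) →* P where
  toFun f := mk 1 f
  map_one' := mk_one
  map_mul' f g := by rw [mk_mul, one_mul]; rfl

@[simp] lemma st_apply (f : X → P) : st f = mk 1 f := rfl

/-- element supported below the vertex `x` -/
def single (x : X) : P →* P := st.comp (MonoidHom.mulSingle (fun _ : X => P) x)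

lemma single_apply (x : X) (g : P) : single x g = mk 1 (Pi.mulSingle x g) := rfl

lemma single_mem_W {x : X} {g : P} (hg : g ∈ W) : single x g ∈ W := by
  rw [single_apply]
  refine mk_mem_W (one_mem _) (fun y => ?_)
  by_cases hy : y = x
  · subst hy; simpa using hg
  · rw [Pi.mulSingle_eq_of_ne hy]; exact one_mem _

/-- conjugation of a single -/
lemma conj_single (σ : Equiv.Perm X) (f : X → P) (x : X) (g : P) :
    mk σ f * single x g * (mk σ f)⁻¹ = single (σ x) (f x * g * (f x)⁻¹) := by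
  rw [mul_inv_eq_iff_eq_mul, single_apply, single_apply, mk_mul, mk_mul]
  congr 1
  funext y
  simp only [coe_one, id]
  by_cases hy : y = x
  · subst hy
    simp
  · have h1 : σ y ≠ σ x := fun h => hy (σ.injective h)
    rw [Pi.mulSingle_eq_of_ne hy, Pi.mulSingle_eq_of_ne h1, mul_one, one_mul]

/-- agreement up to level `n` -/
def Agree (n : ℕ) (g h : P) : Prop := ∀ v : List X, v.length ≤ n → g v = h v

lemma Agree.refl (n : ℕ) (g : P) : Agree n g g := fun _ _ => rfl
lemma Agree.symm {n : ℕ} {g h : P} (e : Agree n g h) : Agree n h g := fun v hv => (e v hv).symm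
lemma Agree.trans {n : ℕ} {g h k : P} (e : Agree n g h) (e' : Agree n h k) : Agree n g k :=
  fun v hv => (e v hv).trans (e' v hv)

lemma Agree.mul {n : ℕ} {g g' h h' : P} (hh : h ∈ W) (e : Agree n g g') (e' : Agree n h h') :
    Agree n (g * h) (g' * h') := by
  intro v hv
  rw [mul_apply, mul_apply, ← e' v hv]
  exact e _ (by rw [W_length hh]; exact hv)

lemma Agree.inv {n : ℕ} {g g' : P} (hg : g ∈ W) (e : Agree n g g') : Agree n g⁻¹ g'⁻¹ := by
  intro v hv
  symm
  rw [inv_eq_iff_eq]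
  have h1 : (g⁻¹ v).length ≤ n := by rw [W_length (inv_mem hg)]; exact hv
  rw [← e _ h1, ais]

lemma Agree.mk {n : ℕ} {σ : Equiv.Perm X} {f f' : X → P} (e : ∀ x, Agree n (f x) (f' x)) :
    Agree (n + 1) (mk σ f) (mk σ f') := by
  intro v hv
  cases v with
  | nil => rfl
  | cons x v =>
    rw [mk_cons, mk_cons, e x v (by simpa using hv)]

lemma Agree.single {n : ℕ} {x : X} {g g' : P} (e : Agree n g g') :
    Agree (n + 1) (single x g) (single x g') := by
  rw [single_apply, single_apply]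
  apply Agree.mk
  intro y
  by_cases hy : y = x
  · subst hy; simpa using e
  · rw [Pi.mulSingle_eq_of_ne hy, Pi.mulSingle_eq_of_ne hy]; exact Agree.refl _ _

lemma trans_A5 : ∀ x : X, ∃ σ ∈ A5, σ 0 = x := by
  intro x
  fin_cases x
  · exact ⟨1, one_mem _, rfl⟩
  · exact ⟨Equiv.swap 0 1 * Equiv.swap 2 3, mem_alternatingGroup.2 (by decide), by decide⟩
  · exact ⟨Equiv.swap 0 2 * Equiv.swap 1 3, mem_alternatingGroup.2 (by decide), by decide⟩
  · exact ⟨Equiv.swap 0 3 * Equiv.swap 1 2, mem_alternatingGroup.2 (by decide), by decide⟩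
  · exact ⟨Equiv.swap 0 4 * Equiv.swap 1 2, mem_alternatingGroup.2 (by decide), by decide⟩

lemma exists_noncomm : ∃ σ ∈ A5, ∃ τ ∈ A5, σ * τ * σ⁻¹ * τ⁻¹ ≠ 1 := by
  refine ⟨sga, mem_alternatingGroup.2 (by decide), cyc, mem_alternatingGroup.2 (by decide), ?_⟩
  decide

/-- A normal subgroup with a nontrivial root permutation has all root permutations. -/
lemma roots (N : Subgroup P) (hN : N ≤ W) (hn : ∀ w ∈ W, ∀ g ∈ N, w * g * w⁻¹ ∈ N)
    (hk : ∃ σ h, σ ≠ 1 ∧ mk σ h ∈ N) : ∀ σ ∈ A5, ∃ h, mk σ h ∈ N := by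
  let R : Subgroup A5 :=
    { carrier := {σ | ∃ h, mk (σ : Equiv.Perm X) h ∈ N}
      one_mem' := ⟨fun _ => 1, by
        show mk 1 (fun _ => 1) ∈ N
        rw [mk_one]; exact one_mem _⟩
      mul_mem' := by
        rintro σ τ ⟨h, hh⟩ ⟨k, hk⟩
        have h3 := mul_mem hh hk
        rw [mk_mul] at h3
        exact ⟨_, h3⟩
      inv_mem' := by
        rintro σ ⟨h, hh⟩
        have := inv_mem hh
        rw [mk_inv] at this
        exact ⟨_, this⟩ }
  have hR : R.Normal := by
    constructor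
    rintro σ ⟨h, hh⟩ τ
    have h1 : mk (τ : Equiv.Perm X) (fun _ => 1) ∈ W := mk_mem_W τ.2 (fun _ => one_mem _)
    have h2 := hn _ h1 _ hh
    rw [mk_mul, mk_inv, mk_mul] at h2
    exact ⟨_, h2⟩
  rcases hR.eq_bot_or_eq_top with h | h
  · exfalso
    obtain ⟨σ, f, hσ, hf⟩ := hk
    have h1 : σ ∈ A5 := (mk_mem_W_iff.1 (hN hf)).1
    have h2 : (⟨σ, h1⟩ : A5) ∈ R := ⟨f, hf⟩
    rw [h, Subgroup.mem_bot] at h2
    exact hσ (congrArg Subtype.val h2)
  · intro σ hσ
    have : (⟨σ, hσ⟩ : A5) ∈ R := by rw [h]; trivial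
    exact this

/-- Such a subgroup contains the commutators supported below the vertex `0`. -/
lemma comm_mem (N : Subgroup P) (hN : N ≤ W) (hn : ∀ w ∈ W, ∀ g ∈ N, w * g * w⁻¹ ∈ N)
    (hk : ∃ σ h, σ ≠ 1 ∧ mk σ h ∈ N) (g h : P) (hg : g ∈ W) (hh : h ∈ W) :
    single 0 ⁅g, h⁆ ∈ N := by
  obtain ⟨σ, hσ, hσ0⟩ : ∃ σ ∈ A5, σ 0 = 1 := trans_A5 1
  obtain ⟨f, hf⟩ := roots N hN hn hk σ hσ
  -- s k s⁻¹ k⁻¹
  have h1 : single 0 g * mk σ f * (single 0 g)⁻¹ * (mk σ f)⁻¹ ∈ N :=
    mul_mem (hn _ (single_mem_W hg) _ hf) (inv_mem hf)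
  have h2 : single 0 g * mk σ f * (single 0 g)⁻¹ * (mk σ f)⁻¹ =
      single 0 g * single 1 (f 0 * g⁻¹ * (f 0)⁻¹) := by
    rw [← hσ0, ← conj_single, map_inv]
    group
  rw [h2] at h1
  have h3 := hn _ (single_mem_W hh (x := 0)) _ (inv_mem h1)
  have h4 := mul_mem h1 h3
  have h5 : single 0 g * single 1 (f 0 * g⁻¹ * (f 0)⁻¹) *
      (single 0 h * (single 0 g * single 1 (f 0 * g⁻¹ * (f 0)⁻¹))⁻¹ * (single 0 h)⁻¹) =
      single 0 ⁅g, h⁆ := by
    simp only [single, MonoidHom.comp_apply, ← map_mul, ← map_inv]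
    congr 1
    funext y
    by_cases h0 : y = 0
    · subst h0
      simp [commutatorElement_def, mul_assoc]
    · by_cases h1 : y = 1
      · subst h1
        simp [commutatorElement_def]
      · simp [h0, h1, commutatorElement_def]
  rwa [h5] at h4

theorem NC (n : ℕ) : ∀ (N : Subgroup P), N ≤ W → (∀ w ∈ W, ∀ g ∈ N, w * g * w⁻¹ ∈ N) →
    (∃ σ h, σ ≠ 1 ∧ mk σ h ∈ N) → ∀ w ∈ W, ∃ g ∈ N, Agree n w g := by
  induction n with
  | zero =>
    intro N _ _ _ w hw
    refine ⟨1, one_mem _, fun v hv => ?_⟩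
    have hv' : v = [] := List.length_eq_zero_iff.1 (Nat.le_zero.1 hv)
    subst hv'
    exact (mem_W.1 hw).1
  | succ n ih =>
    intro N hN hn hk w hw
    have hC1 : ⁅W, W⁆ ≤ N.comap (single 0) := by
      rw [Subgroup.commutator_le]
      intro g hg h hh
      exact comm_mem N hN hn hk g h hg hh
    have hC2 : ∀ x, ∀ c ∈ ⁅W, W⁆, single x c ∈ N := by
      intro x c hc
      obtain ⟨τ, hτ, rfl⟩ := trans_A5 x
      have h1 := hn _ (mk_mem_W hτ (fun _ => one_mem W)) _ (hC1 hc)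
      rw [conj_single] at h1
      simpa using h1
    have hCW : ⁅W, W⁆ ≤ W := by
      rw [Subgroup.commutator_le]
      intro g hg h hh
      exact mul_mem (mul_mem (mul_mem hg hh) (inv_mem hg)) (inv_mem hh)
    have hCn : ∀ w ∈ W, ∀ g ∈ ⁅W, W⁆, w * g * w⁻¹ ∈ ⁅W, W⁆ := by
      intro w hw g hg
      have h1 : ⁅w, g⁆ ∈ ⁅W, W⁆ := Subgroup.commutator_mem_commutator hw (hCW hg)
      have h2 := mul_mem h1 hg
      rw [commutatorElement_def] at h2
      simpa using h2
    have hCr : ∃ σ h, σ ≠ 1 ∧ mk σ h ∈ ⁅W, W⁆ := by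
      obtain ⟨σ, hσ, τ, hτ, hne⟩ := exists_noncomm
      have h1 : ⁅mk σ (fun _ => 1), mk τ (fun _ => 1)⁆ ∈ ⁅W, W⁆ :=
        Subgroup.commutator_mem_commutator (mk_mem_W hσ (fun _ => one_mem _))
          (mk_mem_W hτ (fun _ => one_mem _))
      rw [commutatorElement_def, mk_mul, mk_inv, mk_inv, mk_mul, mk_mul] at h1
      exact ⟨_, _, hne, h1⟩
    obtain ⟨σ, hσ, f, hf, rfl⟩ := exists_mk hw
    obtain ⟨f', hf'⟩ := roots N hN hn hk σ hσ
    have hf'W := (mk_mem_W_iff.1 (hN hf')).2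
    have h1 : mk σ f = mk σ f' * mk 1 (fun x => (f' x)⁻¹ * f x) := by
      rw [mk_mul]
      simp
    choose c hc hcA using fun x => ih ⁅W, W⁆ hCW hCn hCr ((f' x)⁻¹ * f x)
      (mul_mem (inv_mem (hf'W x)) (hf x))
    have h2 : mk 1 c ∈ N := by
      have h3 : c ∈ N.comap st := by
        apply Subgroup.pi_mem_of_mulSingle_mem
        intro x
        exact hC2 x (c x) (hc x)
      exact h3
    refine ⟨mk σ f' * mk 1 c, mul_mem hf' h2, ?_⟩
    rw [h1]
    exact Agree.mul (mk_mem_W (one_mem _) (fun x => mul_mem (inv_mem (hf'W x)) (hf x)))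
      (Agree.refl _ _) (Agree.mk hcA)

/-- the group generated by the letters -/
noncomputable def Gm : Subgroup P := Subgroup.closure (SS : Set P)

lemma evalL_mem (q : L) : evalL q ∈ Gm := Subgroup.subset_closure (by
  rw [Finset.mem_coe, mem_SS]; exact ⟨q, rfl⟩)

lemma eval_mem (l : List L) : eval l ∈ Gm := by
  induction l with
  | nil => exact one_mem _
  | cons q l ih => rw [eval_cons]; exact mul_mem (evalL_mem q) ih

lemma aP_mem_W : aP ∈ W :=
  mk_mem_W (mem_alternatingGroup.2 (by decide)) (fun _ => one_mem _)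

lemma aPow_mem_W (e : ZMod 2) : aPow e ∈ W := by
  unfold aPow
  split_ifs
  · exact one_mem _
  · exact aP_mem_W

lemma tau_mem : ∀ β : B, tau β ∈ A5 := by
  intro β
  rw [mem_alternatingGroup]
  revert β
  decide

lemma bP_mem_W (β : B) : bP β ∈ W := by
  refine ⟨rfl, fun v => ?_⟩
  induction v generalizing β with
  | nil =>
    refine ⟨tau β, tau_mem β, fun x => ?_⟩
    show bAct β [x] = bAct β [] ++ [tau β x]
    simp only [bAct]
    have h2 : aPow (omg β) [] = [] := (mem_W.1 (aPow_mem_W _)).1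
    rw [h2]
    simp
  | cons y v ih =>
    have h1 : ∀ u, bP β (y :: u) = tau β y ::
      (if y = 0 then bP (rho β) u else if y = 1 then aPow (omg β) u else u) := fun u => rfl
    by_cases h0 : y = 0
    · obtain ⟨σ, hσ, h2⟩ := ih (rho β)
      refine ⟨σ, hσ, fun x => ?_⟩
      rw [List.cons_append, h1, h1, if_pos h0, if_pos h0, h2]
      rfl
    · by_cases h3 : y = 1
      · obtain ⟨σ, hσ, h2⟩ := (mem_W.1 (aPow_mem_W (omg β))).2 v
        refine ⟨σ, hσ, fun x => ?_⟩
        rw [List.cons_append, h1, h1, if_neg h0, if_neg h0, if_pos h3, if_pos h3, h2]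
        rfl
      · refine ⟨1, one_mem _, fun x => ?_⟩
        rw [List.cons_append, h1, h1, if_neg h0, if_neg h0, if_neg h3, if_neg h3]
        rfl

lemma evalL_mem_W (q : L) : evalL q ∈ W := by
  cases q with
  | none => exact aP_mem_W
  | some β => exact bP_mem_W β

lemma SS_subset_W : ∀ g ∈ SS, g ∈ W := by
  intro g hg
  obtain ⟨q, rfl⟩ := (mem_SS g).1 hg
  exact evalL_mem_W q

lemma Gm_le_W : Gm ≤ W := by
  rw [Gm, Subgroup.closure_le]
  exact fun g hg => SS_subset_W g (Finset.mem_coe.1 hg)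

lemma cyc_mem : cyc ∈ A5 := mem_alternatingGroup.2 (by decide)
lemma sga_mem : sga ∈ A5 := mem_alternatingGroup.2 (by decide)

/-- all even permutations are root permutations of elements of `Gm`. -/
lemma Gm_roots : ∀ σ ∈ A5, ∃ h, mk σ h ∈ Gm := by
  let R : Subgroup A5 :=
    { carrier := {σ | ∃ h, mk (σ : Equiv.Perm X) h ∈ Gm}
      one_mem' := ⟨fun _ => 1, by
        show mk 1 (fun _ => 1) ∈ Gm
        rw [mk_one]; exact one_mem _⟩
      mul_mem' := by
        rintro σ τ ⟨h, hh⟩ ⟨k, hk⟩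
        have h3 := mul_mem hh hk
        rw [mk_mul] at h3
        exact ⟨_, h3⟩
      inv_mem' := by
        rintro σ ⟨h, hh⟩
        have := inv_mem hh
        rw [mk_inv] at this
        exact ⟨_, this⟩ }
  have hR1 : (⟨sga, sga_mem⟩ : A5) ∈ R := by
    refine ⟨fun _ => 1, ?_⟩
    have := evalL_mem none
    exact this
  have hR2 : (⟨cyc, cyc_mem⟩ : A5) ∈ R := by
    have h1 := evalL_mem (some (Multiplicative.ofAdd (0, 0, 1)))
    rw [evalL_eq] at h1
    have h2 : permL (some (Multiplicative.ofAdd (0, 0, 1))) = cyc := by decide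
    rw [h2] at h1
    exact ⟨_, h1⟩
  have hcard : Nat.card A5 = 60 := by
    rw [nat_card_alternatingGroup, Nat.card_eq_fintype_card, Fintype.card_fin]
    rfl
  have hdiv : ∀ (σ : A5), σ ∈ R → orderOf σ ∣ Nat.card R := by
    intro σ hσ
    have := orderOf_dvd_natCard (⟨σ, hσ⟩ : R)
    rwa [← Subgroup.orderOf_coe] at this
  have h2 : 2 ∣ Nat.card R := by
    have h := hdiv _ hR1
    have ho : orderOf (⟨sga, sga_mem⟩ : A5) = 2 := by
      rw [orderOf_eq_prime_iff]
      constructor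
      · apply Subtype.ext
        show sga ^ 2 = 1
        decide
      · intro h
        exact absurd (congrArg Subtype.val h) (by decide)
    rwa [ho] at h
  have h3 : 3 ∣ Nat.card R := by
    have h := hdiv _ hR2
    have ho : orderOf (⟨cyc, cyc_mem⟩ : A5) = 3 := by
      rw [orderOf_eq_prime_iff]
      constructor
      · apply Subtype.ext
        show cyc ^ 3 = 1
        decide
      · intro h
        exact absurd (congrArg Subtype.val h) (by decide)
    rwa [ho] at h
  have h5 : 5 ∣ Nat.card R := by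
    have h := hdiv _ (mul_mem hR1 hR2)
    have hp5 : Fact (Nat.Prime 5) := ⟨by norm_num⟩
    have ho : orderOf ((⟨sga, sga_mem⟩ : A5) * ⟨cyc, cyc_mem⟩) = 5 := by
      rw [orderOf_eq_prime_iff]
      constructor
      · apply Subtype.ext
        show (sga * cyc) ^ 5 = 1
        decide
      · intro h
        exact absurd (congrArg Subtype.val h) (by decide)
    rwa [ho] at h
  have h30 : 30 ∣ Nat.card R := by
    have h6 : 2 * 3 ∣ Nat.card R := Nat.Coprime.mul_dvd_of_dvd_of_dvd (by norm_num) h2 h3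
    exact Nat.Coprime.mul_dvd_of_dvd_of_dvd (m := 2 * 3) (n := 5) (by norm_num) h6 h5
  have hidx := R.card_mul_index
  rw [hcard] at hidx
  obtain ⟨c, hc⟩ := h30
  have hidx2 : c * R.index = 2 := by
    have : 30 * (c * R.index) = 30 * 2 := by rw [← mul_assoc, ← hc, hidx]
    omega
  have hidx3 : R.index = 1 ∨ R.index = 2 := by
    have : R.index ∣ 2 := ⟨c, by rw [← hidx2, mul_comm]⟩
    exact (Nat.dvd_prime Nat.prime_two).1 this
  have htop : R = ⊤ := by
    rcases hidx3 with h | h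
    · exact Subgroup.index_eq_one.1 h
    · have hnormal : R.Normal := Subgroup.normal_of_index_eq_two h
      rcases hnormal.eq_bot_or_eq_top with h' | h'
      · rw [h', Subgroup.index_bot, hcard] at h
        omega
      · exact h'
  intro σ hσ
  have : (⟨σ, hσ⟩ : A5) ∈ R := by rw [htop]; trivial
  exact this

/-- the group is fractal at the vertex `0` -/
lemma fractal : ∀ δ ∈ Gm, ∃ ρ f, mk ρ f ∈ Gm ∧ ρ 0 = 0 ∧ f 0 = δ := by
  let R : Subgroup P :=
    { carrier := {δ | ∃ ρ f, mk ρ f ∈ Gm ∧ ρ 0 = 0 ∧ f 0 = δ}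
      one_mem' := ⟨1, fun _ => 1, by rw [mk_one]; exact one_mem _, rfl, rfl⟩
      mul_mem' := by
        rintro _ _ ⟨ρ, f, h1, h2, rfl⟩ ⟨ρ', f', h1', h2', rfl⟩
        have h3 := mul_mem h1 h1'
        rw [mk_mul] at h3
        refine ⟨_, _, h3, by rw [mul_apply, h2', h2], ?_⟩
        show f (ρ' 0) * f' 0 = f 0 * f' 0
        rw [h2']
      inv_mem' := by
        rintro _ ⟨ρ, f, h1, h2, rfl⟩
        have h3 := inv_mem h1
        rw [mk_inv] at h3
        have h4 : ρ⁻¹ 0 = 0 := by rw [inv_eq_iff_eq, h2]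
        refine ⟨_, _, h3, h4, ?_⟩
        show (f (ρ⁻¹ 0))⁻¹ = (f 0)⁻¹
        rw [h4] }
  have hle : Gm ≤ R := by
    rw [Gm, Subgroup.closure_le]
    intro g hg
    obtain ⟨q, rfl⟩ := (mem_SS g).1 (Finset.mem_coe.1 hg)
    cases q with
    | none =>
      have h1 := eval_mem [none, some (Multiplicative.ofAdd (0, 0, 2)), none,
        some (Multiplicative.ofAdd (1, 0, 0)), none, some (Multiplicative.ofAdd (0, 0, 1)), none]
      rw [eval_eq] at h1
      refine ⟨_, _, h1, by decide, ?_⟩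
      have h2 : sec [none, some (Multiplicative.ofAdd (0, 0, 2)), none,
        some (Multiplicative.ofAdd (1, 0, 0)), none,
        some (Multiplicative.ofAdd (0, 0, 1)), none] 0 = [none] := by decide
      rw [h2]
      simp
    | some β =>
      have h1 := evalL_mem (some (rho (rho β)))
      rw [evalL_eq] at h1
      refine ⟨_, _, h1, tau_zero _, ?_⟩
      have h2 : ∀ β : B, secL (some (rho (rho β))) 0 = [some β] := by decide
      rw [h2]
      simp
  exact hle

/-- the first auxiliary word -/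
def wu : List L := [none, some (Multiplicative.ofAdd (0, 0, 2)), none,
        some (Multiplicative.ofAdd (1, 0, 0)), none, some (Multiplicative.ofAdd (0, 0, 1)), none]

/-- the second auxiliary word -/
def wv : List L := [some (Multiplicative.ofAdd (0, 0, 1)), none,
        some (Multiplicative.ofAdd (0, 0, 2)), none,
        some (Multiplicative.ofAdd (1, 0, 0)), none, some (Multiplicative.ofAdd (0, 0, 1)), none,
        some (Multiplicative.ofAdd (0, 0, 2))]

/-- the special element -/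
def k0 : P := ⁅aP, eval [some (Multiplicative.ofAdd (0, 0, 1)), none,
  some (Multiplicative.ofAdd (0, 0, 2))]⁆

lemma eval_t : eval [some (Multiplicative.ofAdd ((0 : ZMod 2), (0 : ZMod 2), (2 : ZMod 3))),
    some (Multiplicative.ofAdd (0, 0, 1))] = 1 := by
  have h : (Multiplicative.ofAdd ((0 : ZMod 2), (0 : ZMod 2), (2 : ZMod 3)) : B) *
    Multiplicative.ofAdd (0, 0, 1) = 1 := by decide
  rw [eval_cons, eval_cons, eval_nil, mul_one]
  show bP _ * bP _ = 1
  rw [← map_mul, h, map_one]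

lemma single_k0 : single 0 k0 ∈ Gm := by
  have hu := eval_mem wu
  have hv := eval_mem wv
  have h : ⁅eval wu, eval wv⁆ ∈ Gm := mul_mem (mul_mem (mul_mem hu hv) (inv_mem hu)) (inv_mem hv)
  have e1 : perm wu = 1 := by decide
  have e2 : perm wv = 1 := by decide
  have hu' : eval wu = st (fun x => eval (sec wu x)) := by rw [eval_eq wu, e1]; rfl
  have hv' : eval wv = st (fun x => eval (sec wv x)) := by rw [eval_eq wv, e2]; rfl
  rw [hu', hv', ← map_commutatorElement] at h
  have h2 : ⁅(fun x => eval (sec wu x) : X → P), (fun x => eval (sec wv x))⁆ = Pi.mulSingle 0 k0 := by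
    funext x
    have u0 : sec wu 0 = [none] := by decide
    have u1 : sec wu 1 = [] := by decide
    have u2 : sec wu 2 = [some (Multiplicative.ofAdd (0, 0, 2)),
      some (Multiplicative.ofAdd (0, 0, 1))] := by decide
    have v0 : sec wv 0 = [some (Multiplicative.ofAdd (0, 0, 1)), none,
      some (Multiplicative.ofAdd (0, 0, 2))] := by decide
    have v3 : sec wv 3 = [some (Multiplicative.ofAdd (0, 0, 2)),
      some (Multiplicative.ofAdd (0, 0, 1))] := by decide
    have v4 : sec wv 4 = [] := by decide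
    show eval (sec wu x) * eval (sec wv x) * (eval (sec wu x))⁻¹ * (eval (sec wv x))⁻¹ = _
    fin_cases x
    · show eval (sec wu 0) * eval (sec wv 0) * (eval (sec wu 0))⁻¹ * (eval (sec wv 0))⁻¹ =
        (Pi.mulSingle 0 k0 : X → P) 0
      rw [u0, v0, Pi.mulSingle_eq_same]
      simp [k0, commutatorElement_def, evalL]
    · show eval (sec wu 1) * eval (sec wv 1) * (eval (sec wu 1))⁻¹ * (eval (sec wv 1))⁻¹ =
        (Pi.mulSingle 0 k0 : X → P) 1
      rw [u1, Pi.mulSingle_eq_of_ne (by decide)]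
      simp
    · show eval (sec wu 2) * eval (sec wv 2) * (eval (sec wu 2))⁻¹ * (eval (sec wv 2))⁻¹ =
        (Pi.mulSingle 0 k0 : X → P) 2
      rw [u2, eval_t, Pi.mulSingle_eq_of_ne (by decide)]
      simp
    · show eval (sec wu 3) * eval (sec wv 3) * (eval (sec wu 3))⁻¹ * (eval (sec wv 3))⁻¹ =
        (Pi.mulSingle 0 k0 : X → P) 3
      rw [v3, eval_t, Pi.mulSingle_eq_of_ne (by decide)]
      simp
    · show eval (sec wu 4) * eval (sec wv 4) * (eval (sec wu 4))⁻¹ * (eval (sec wv 4))⁻¹ =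
        (Pi.mulSingle 0 k0 : X → P) 4
      rw [v4, Pi.mulSingle_eq_of_ne (by decide)]
      simp
  rw [h2] at h
  exact h

lemma k0_eq : ∃ σ f, σ ≠ 1 ∧ mk σ f = k0 := by
  have h1 : aP = eval [none] := by simp [evalL]
  have h2 : k0 = eval [none] * eval [some (Multiplicative.ofAdd (0, 0, 1)), none,
      some (Multiplicative.ofAdd (0, 0, 2))] * (eval [none])⁻¹ *
      (eval [some (Multiplicative.ofAdd (0, 0, 1)), none,
      some (Multiplicative.ofAdd (0, 0, 2))])⁻¹ := by
    rw [← h1]; rfl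
  rw [eval_eq, eval_eq, mk_mul, mk_inv, mk_inv, mk_mul, mk_mul] at h2
  refine ⟨_, _, ?_, h2.symm⟩
  intro h
  have h3 := congrArg (fun σ : Equiv.Perm X => σ 0) h
  revert h3
  decide

lemma k0_mem_W : k0 ∈ W := by
  have h := Gm_le_W single_k0
  rw [single_apply, mk_mem_W_iff] at h
  simpa using h.2 0

theorem density (n : ℕ) : ∀ w ∈ W, ∃ γ ∈ Gm, Agree n w γ := by
  induction n with
  | zero =>
    intro w hw
    refine ⟨1, one_mem _, fun v hv => ?_⟩
    have hv' : v = [] := List.length_eq_zero_iff.1 (Nat.le_zero.1 hv)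
    subst hv'
    exact (mem_W.1 hw).1
  | succ n ih =>
    let N : Subgroup P :=
      { carrier := {g | g ∈ W ∧ ∃ γ ∈ Gm, Agree (n + 1) (single 0 g) γ}
        one_mem' := ⟨one_mem _, 1, one_mem _, by rw [map_one]; exact Agree.refl _ _⟩
        mul_mem' := by
          rintro a b ⟨ha, γ, hγ, h1⟩ ⟨hb, δ, hδ, h2⟩
          refine ⟨mul_mem ha hb, γ * δ, mul_mem hγ hδ, ?_⟩
          rw [map_mul]
          exact Agree.mul (single_mem_W hb) h1 h2
        inv_mem' := by
          rintro a ⟨ha, γ, hγ, h1⟩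
          refine ⟨inv_mem ha, γ⁻¹, inv_mem hγ, ?_⟩
          rw [map_inv]
          exact Agree.inv (single_mem_W ha) h1 }
    have hNW : N ≤ W := fun g hg => hg.1
    have hNn : ∀ w ∈ W, ∀ g ∈ N, w * g * w⁻¹ ∈ N := by
      rintro w hw g ⟨hg, γ, hγ, h1⟩
      refine ⟨mul_mem (mul_mem hw hg) (inv_mem hw), ?_⟩
      obtain ⟨δ, hδ, h2⟩ := ih w hw
      obtain ⟨ρ, f, h3, h4, h5⟩ := fractal δ hδ
      have hδW := Gm_le_W hδ
      refine ⟨mk ρ f * γ * (mk ρ f)⁻¹, mul_mem (mul_mem h3 hγ) (inv_mem h3), ?_⟩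
      have h6 := conj_single ρ f 0 g
      rw [h4, h5] at h6
      have h7 : Agree (n + 1) (single 0 (w * g * w⁻¹)) (single 0 (δ * g * δ⁻¹)) := by
        apply Agree.single
        apply Agree.mul (inv_mem hw)
        · exact Agree.mul hg h2 (Agree.refl _ _)
        · exact Agree.inv hw h2
      refine h7.trans ?_
      rw [← h6]
      apply Agree.mul (inv_mem (Gm_le_W h3))
      · exact Agree.mul (single_mem_W hg) (Agree.refl _ _) h1
      · exact Agree.refl _ _
    have hNk : ∃ σ h, σ ≠ 1 ∧ mk σ h ∈ N := by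
      obtain ⟨σ, f, h1, h2⟩ := k0_eq
      refine ⟨σ, f, h1, ?_⟩
      rw [h2]
      exact ⟨k0_mem_W, _, single_k0, Agree.refl _ _⟩
    have h0 : ∀ w ∈ W, ∃ γ ∈ Gm, Agree (n + 1) (single 0 w) γ := by
      intro w hw
      obtain ⟨g, ⟨hg, γ, hγ, h1⟩, h2⟩ := NC n N hNW hNn hNk w hw
      exact ⟨γ, hγ, h2.single.trans h1⟩
    have hx : ∀ x, ∀ w ∈ W, ∃ γ ∈ Gm, Agree (n + 1) (single x w) γ := by
      intro x w hw
      obtain ⟨ρ, hρ, rfl⟩ := trans_A5 x
      obtain ⟨f, hf⟩ := Gm_roots ρ hρ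
      have hfW := (mk_mem_W_iff.1 (Gm_le_W hf)).2
      have hgW : (f 0)⁻¹ * w * f 0 ∈ W := mul_mem (mul_mem (inv_mem (hfW 0)) hw) (hfW 0)
      obtain ⟨γ, hγ, h1⟩ := h0 _ hgW
      refine ⟨mk ρ f * γ * (mk ρ f)⁻¹, mul_mem (mul_mem hf hγ) (inv_mem hf), ?_⟩
      have h2 := conj_single ρ f 0 ((f 0)⁻¹ * w * f 0)
      have h3 : f 0 * ((f 0)⁻¹ * w * f 0) * (f 0)⁻¹ = w := by group
      rw [h3] at h2
      rw [← h2]
      apply Agree.mul (inv_mem (Gm_le_W hf))
      · exact Agree.mul (single_mem_W hgW) (Agree.refl _ _) h1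
      · exact Agree.refl _ _
    let M : Subgroup (X → P) :=
      { carrier := {f | (∀ x, f x ∈ W) ∧ ∃ γ ∈ Gm, Agree (n + 1) (mk 1 f) γ}
        one_mem' := ⟨fun _ => one_mem _, 1, one_mem _, by
          show Agree (n + 1) (mk 1 (fun _ => 1)) 1
          rw [mk_one]; exact Agree.refl _ _⟩
        mul_mem' := by
          rintro a b ⟨ha, γ, hγ, h1⟩ ⟨hb, δ, hδ, h2⟩
          refine ⟨fun x => mul_mem (ha x) (hb x), γ * δ, mul_mem hγ hδ, ?_⟩
          have h3 : mk 1 (a * b) = mk 1 a * mk 1 b := by rw [mk_mul, one_mul]; rfl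
          rw [h3]
          exact Agree.mul (mk_mem_W (one_mem _) hb) h1 h2
        inv_mem' := by
          rintro a ⟨ha, γ, hγ, h1⟩
          refine ⟨fun x => inv_mem (ha x), γ⁻¹, inv_mem hγ, ?_⟩
          have h3 : mk 1 a⁻¹ = (mk 1 a)⁻¹ := by rw [mk_inv, inv_one]; rfl
          rw [h3]
          exact Agree.inv (mk_mem_W (one_mem _) ha) h1 }
    intro w hw
    obtain ⟨σ, hσ, f, hf, rfl⟩ := exists_mk hw
    obtain ⟨f', hf'⟩ := Gm_roots σ hσ
    have hf'W := (mk_mem_W_iff.1 (Gm_le_W hf')).2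
    have hM : (fun x => (f' x)⁻¹ * f x) ∈ M := by
      apply Subgroup.pi_mem_of_mulSingle_mem
      intro x
      have hxW : (f' x)⁻¹ * f x ∈ W := mul_mem (inv_mem (hf'W x)) (hf x)
      refine ⟨fun y => ?_, hx x _ hxW⟩
      by_cases hy : y = x
      · subst hy; simpa using hxW
      · rw [Pi.mulSingle_eq_of_ne hy]; exact one_mem _
    obtain ⟨h1, γ, hγ, h2⟩ := hM
    refine ⟨mk σ f' * γ, mul_mem hf' hγ, ?_⟩
    have h3 : mk σ f = mk σ f' * mk 1 (fun x => (f' x)⁻¹ * f x) := by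
      rw [mk_mul]
      simp
    rw [h3]
    exact Agree.mul (mk_mem_W (one_mem _) h1) (Agree.refl _ _) h2

end Pool.Agent.Work.MP_092669_al
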